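import Pool.Agent.LibRCS.Crit
import Pool.Agent.LibNB97.Main

open Set MeasureTheory Filter
open scoped Topology

namespace Pool.Agent.Results.MP_81397d_pr.Criterion

open Pool.Agent.LibRCS

open Classical in
/-- The linear inequalities with modulus `w`: for every finite set `F` of points, all real
coefficients `a x y`, all nonnegative coefficients `b D` attached to the subsets `D` of `F`, and
every constant `c`: if for every `T ⊆ F` the sum of `a x y` over `x, y ∈ T` plus the sum of `b D`
over the `D` that meet `T` is at least `c`, then the same expression with `S (x - y)` in place of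
the event `x, y ∈ T` and `S 0 + w (diam D)` in place of the event that `D` meets `T` is at least
`c`. -/
def FiniteInequalities {d : ℕ} (S : EuclideanSpace ℝ (Fin d) → ℝ) (w : ℝ → ℝ) : Prop :=
  ∀ (F : Finset (EuclideanSpace ℝ (Fin d)))
    (a : EuclideanSpace ℝ (Fin d) → EuclideanSpace ℝ (Fin d) → ℝ)
    (b : Finset (EuclideanSpace ℝ (Fin d)) → ℝ) (c : ℝ),
    (∀ D, 0 ≤ b D) →
    (∀ T ⊆ F, c ≤ ∑ x ∈ T, ∑ y ∈ T, a x y +
      ∑ D ∈ F.powerset, if (D ∩ T).Nonempty then b D else 0) →
    c ≤ ∑ x ∈ F, ∑ y ∈ F, a x y * S (x - y) +
      ∑ D ∈ F.powerset, b D * (S 0 + w (Metric.diam (D : Set (EuclideanSpace ℝ (Fin d)))))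

/-- The continuous functions on `ℝ^d` that are covariances of stationary random closed sets. -/
def covariances (d : ℕ) : Set C(EuclideanSpace ℝ (Fin d), ℝ) :=
  {f | IsStationaryRCSCovariance (f : EuclideanSpace ℝ (Fin d) → ℝ)}

/-- **Criterion and its exact complexity.**  A function `S` on `ℝ^d` is the covariance of a
stationary random closed set if and only if it satisfies all the linear inequalities of
`FiniteInequalities` with some modulus `w` tending to `0` at `0`.  For a fixed modulus the
inequalities define a closed set of continuous functions; the union over all moduli, the set of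
covariances, is a complete analytic subset of the space of continuous functions with the topology
of locally uniform convergence: it is analytic, and every analytic subset of a Polish space is its
preimage under a Borel map.  In particular it is not a Borel set. -/
theorem result (d : ℕ) (hd : 1 ≤ d) :
    (∀ S : EuclideanSpace ℝ (Fin d) → ℝ, IsStationaryRCSCovariance S ↔
      ∃ w : ℝ → ℝ, Tendsto w (𝓝[>] 0) (𝓝 0) ∧ FiniteInequalities S w) ∧
    (∀ w : ℝ → ℝ, IsClosed {f : C(EuclideanSpace ℝ (Fin d), ℝ) | FiniteInequalities f w}) ∧
    AnalyticSet (covariances d) ∧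
    (∀ (α : Type) [TopologicalSpace α] [PolishSpace α] (A : Set α), AnalyticSet A →
      ∃ F : α → C(EuclideanSpace ℝ (Fin d), ℝ), Measurable[borel α, borel _] F ∧
        A = F ⁻¹' covariances d) ∧
    ¬ MeasurableSet[borel C(EuclideanSpace ℝ (Fin d), ℝ)] (covariances d) := by
  have h := LibNB97.complete_analytic.{0} (⟨0, hd⟩ : Fin d)
  refine ⟨fun S => LibRCS.Crit.criterion d S, fun w => ?_, h.1, fun α _ _ A hA => h.2.2 A hA, h.2.1⟩
  have hev : ∀ x : EuclideanSpace ℝ (Fin d),
      Continuous fun f : C(EuclideanSpace ℝ (Fin d), ℝ) => f x := fun x =>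
    continuous_eval_const x
  unfold FiniteInequalities
  simp only [Set.ofPred_forall]
  refine isClosed_iInter fun F => isClosed_iInter fun a => isClosed_iInter fun b =>
    isClosed_iInter fun c => isClosed_iInter fun _ => isClosed_iInter fun _ => ?_
  refine isClosed_le continuous_const ?_
  refine Continuous.add ?_ ?_
  · exact continuous_finsetSum _ fun x _ => continuous_finsetSum _ fun y _ =>
      continuous_const.mul (hev (x - y))
  · exact continuous_finsetSum _ fun D _ => continuous_const.mul ((hev 0).add continuous_const)

end Pool.Agent.Results.MP_81397d_pr.Criterion
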