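import Pool.Agent.LibRCS.Closed

open MeasureTheory Filter Set
open scoped Topology

namespace Pool.Agent.Results.MP_81397d_pr.NotClosedClass

open Pool.Agent.LibRCS

/-- For every dimension `d ≥ 1` and every `p ∈ (0,1)` there is a continuous function `S` on `ℝ^d`
with `S 0 = p` which is a uniform limit of covariances of stationary random closed sets, satisfies
every finite-dimensional (McMillan type) inequality, and is even the covariance of a stationary
random measurable set, but is not the two-point function of any random closed set, stationary or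
not. -/
theorem result (d : ℕ) (hd : 0 < d) (p : ℝ) (hp0 : 0 < p) (hp1 : p < 1) :
    ∃ S : EuclideanSpace ℝ (Fin d) → ℝ,
      Continuous S ∧ S 0 = p ∧
      (∃ Sk : ℕ → EuclideanSpace ℝ (Fin d) → ℝ,
        (∀ k, IsStationaryRCSCovariance (Sk k)) ∧ TendstoUniformly Sk S atTop) ∧
      (∃ (Ω : Type) (_ : MeasurableSpace Ω) (P : Measure Ω)
          (A : Set (Ω × EuclideanSpace ℝ (Fin d))),
        IsProbabilityMeasure P ∧ MeasurableSet A ∧
        (∀ (a : EuclideanSpace ℝ (Fin d)) (F G : Finset (EuclideanSpace ℝ (Fin d))),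
          P {ω | (∀ x ∈ F, (ω, x + a) ∈ A) ∧ (∀ x ∈ G, (ω, x + a) ∉ A)}
            = P {ω | (∀ x ∈ F, (ω, x) ∈ A) ∧ (∀ x ∈ G, (ω, x) ∉ A)}) ∧
        ∀ x y, P.real {ω | (ω, x) ∈ A ∧ (ω, y) ∈ A} = S (x - y)) ∧
      (∀ (F : Finset (EuclideanSpace ℝ (Fin d)))
          (a : EuclideanSpace ℝ (Fin d) → EuclideanSpace ℝ (Fin d) → ℝ) (c : ℝ),
        (∀ T ⊆ F, c ≤ ∑ x ∈ T, ∑ y ∈ T, a x y) →
          c ≤ ∑ x ∈ F, ∑ y ∈ F, a x y * S (x - y)) ∧
      ∀ μ : Measure (ClosedSubset d), IsProbabilityMeasure μ →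
        ¬ ∀ x y, μ.real {F | x ∈ F.carrier ∧ y ∈ F.carrier} = S (x - y) := by
  classical
  obtain ⟨E, hE, hEp, hW⟩ := exists_weird_set p hp0.le hp1.le
  have hA : MeasurableSet {q : T1 × EuclideanSpace ℝ (Fin d) | q.1 + pr hd q.2 ∈ E} := by
    have : Measurable (fun q : T1 × EuclideanSpace ℝ (Fin d) => q.1 + pr hd q.2) :=
      measurable_fst.add ((continuous_pr hd).measurable.comp measurable_snd)
    exact this hE
  have hcov : ∀ x y : EuclideanSpace ℝ (Fin d),
      mT.real {ω | (ω, x) ∈ {q : T1 × EuclideanSpace ℝ (Fin d) | q.1 + pr hd q.2 ∈ E} ∧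
        (ω, y) ∈ {q : T1 × EuclideanSpace ℝ (Fin d) | q.1 + pr hd q.2 ∈ E}}
      = autoc E (pr hd (x - y)) := by
    intro x y
    rw [pr_sub, ← shift_two_point E hE]
    rfl
  refine ⟨fun x => autoc E (pr hd x), (autoc_continuous E hE).comp (continuous_pr hd), ?_, ?_, ?_,
    ?_, ?_⟩
  · have : pr hd (0 : EuclideanSpace ℝ (Fin d)) = 0 := by simp [pr]
    simp only [this]
    unfold autoc
    rw [← hEp]
    congr 1
    ext z; simp
  · -- uniform limit
    have hex : ∀ k : ℕ, ∃ C ⊆ E, IsClosed C ∧ mT (E \ C) < ENNReal.ofReal (1 / ((k:ℝ) + 1)) := by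
      intro k
      exact hE.exists_isClosed_sdiff_lt (measure_ne_top _ _)
        (by simp only [ne_eq, ENNReal.ofReal_eq_zero, not_le]; positivity)
    choose C hCE hC hCm using hex
    refine ⟨fun k x => autoc (C k) (pr hd x), fun k => closed_autoc hd (C k) (hC k), ?_⟩
    rw [Metric.tendstoUniformly_iff]
    intro ε hε
    have hlim : Tendsto (fun k : ℕ => 2 * (1 / ((k:ℝ) + 1))) atTop (𝓝 0) := by
      simpa using (tendsto_one_div_add_atTop_nhds_zero_nat (𝕜 := ℝ)).const_mul 2
    filter_upwards [hlim.eventually (gt_mem_nhds hε)] with k hk x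
    rw [Real.dist_eq]
    have h1 := autoc_sub_le E (C k) hE (hC k).measurableSet (hCE k) (pr hd x)
    have h2 : mT.real (E \ C k) ≤ 1 / ((k:ℝ) + 1) := by
      rw [measureReal_def]
      exact ENNReal.toReal_le_of_le_ofReal (by positivity) (hCm k).le
    linarith
  · -- the stationary random measurable set
    refine ⟨T1, inferInstance, mT, {q | q.1 + pr hd q.2 ∈ E}, inferInstance, hA, ?_, hcov⟩
    intro a F G
    have hm : MeasurableSet {ω : T1 | (∀ x ∈ F, (ω, x) ∈ {q : T1 × EuclideanSpace ℝ (Fin d) |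
        q.1 + pr hd q.2 ∈ E}) ∧ (∀ x ∈ G, (ω, x) ∉ {q : T1 × EuclideanSpace ℝ (Fin d) |
        q.1 + pr hd q.2 ∈ E})} := by
      apply MeasurableSet.inter
      · have : {ω : T1 | ∀ x ∈ F, (ω, x) ∈ {q : T1 × EuclideanSpace ℝ (Fin d) |
            q.1 + pr hd q.2 ∈ E}} = ⋂ x ∈ F, (fun ω : T1 => ω + pr hd x) ⁻¹' E := by
          ext ω; simp
        change MeasurableSet {ω : T1 | ∀ x ∈ F, (ω, x) ∈ {q : T1 × EuclideanSpace ℝ (Fin d) |
            q.1 + pr hd q.2 ∈ E}}
        rw [this]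
        exact Finset.measurableSet_biInter _ (fun x _ => (measurable_add_const _) hE)
      · have : {ω : T1 | ∀ x ∈ G, (ω, x) ∉ {q : T1 × EuclideanSpace ℝ (Fin d) |
            q.1 + pr hd q.2 ∈ E}} = ⋂ x ∈ G, (fun ω : T1 => ω + pr hd x) ⁻¹' Eᶜ := by
          ext ω; simp
        change MeasurableSet {ω : T1 | ∀ x ∈ G, (ω, x) ∉ {q : T1 × EuclideanSpace ℝ (Fin d) |
            q.1 + pr hd q.2 ∈ E}}
        rw [this]
        exact Finset.measurableSet_biInter _ (fun x _ => (measurable_add_const _) hE.compl)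
    rw [← (measurePreserving_add_right mT (pr hd a)).measure_preimage hm.nullMeasurableSet]
    congr 1
    ext ω
    simp only [mem_ofPred_eq, mem_preimage, pr_add]
    have e : ∀ x, ω + (pr hd x + pr hd a) = ω + pr hd a + pr hd x := fun x => by abel
    simp only [e]
  · -- finite-dimensional inequalities
    intro F a c hc
    set T : T1 → Finset (EuclideanSpace ℝ (Fin d)) := fun ω => F.filter (fun x => ω + pr hd x ∈ E)
    have h1 : ∀ ω, c ≤ ∑ x ∈ F, ∑ y ∈ F, a x y *
        ({ω : T1 | ω + pr hd x ∈ E ∧ ω + pr hd y ∈ E}.indicator (fun _ => (1:ℝ)) ω) := by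
      intro ω
      have h2 := hc (T ω) (Finset.filter_subset _ _)
      have h3 : ∑ x ∈ T ω, ∑ y ∈ T ω, a x y = ∑ x ∈ F, ∑ y ∈ F, a x y *
        ({ω : T1 | ω + pr hd x ∈ E ∧ ω + pr hd y ∈ E}.indicator (fun _ => (1:ℝ)) ω) := by
        simp only [T, Finset.sum_filter]
        apply Finset.sum_congr rfl
        intro x _
        by_cases hx : ω + pr hd x ∈ E
        · simp only [hx, if_true]
          apply Finset.sum_congr rfl
          intro y _
          by_cases hy : ω + pr hd y ∈ E <;> simp [hy, hx]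
        · simp [hx]
      rw [← h3]; exact h2
    have hms : ∀ x y, MeasurableSet {ω : T1 | ω + pr hd x ∈ E ∧ ω + pr hd y ∈ E} := fun x y =>
      ((measurable_add_const _) hE).inter ((measurable_add_const _) hE)
    have hint : ∀ x y, Integrable (fun ω => a x y *
        ({ω : T1 | ω + pr hd x ∈ E ∧ ω + pr hd y ∈ E}.indicator (fun _ => (1:ℝ)) ω)) mT := fun x y =>
      ((integrable_const (1:ℝ)).indicator (hms x y)).const_mul _
    have h4 : c ≤ ∫ ω, (∑ x ∈ F, ∑ y ∈ F, a x y *
        ({ω : T1 | ω + pr hd x ∈ E ∧ ω + pr hd y ∈ E}.indicator (fun _ => (1:ℝ)) ω)) ∂mT := by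
      have h5 : ∫ _ω : T1, c ∂mT ≤ ∫ ω, (∑ x ∈ F, ∑ y ∈ F, a x y *
        ({ω : T1 | ω + pr hd x ∈ E ∧ ω + pr hd y ∈ E}.indicator (fun _ => (1:ℝ)) ω)) ∂mT := by
        apply integral_mono (integrable_const _) _ h1
        exact integrable_finsetSum _ (fun x _ => integrable_finsetSum _ (fun y _ => hint x y))
      simpa using h5
    refine h4.trans (le_of_eq ?_)
    rw [integral_finsetSum _ (fun x _ => integrable_finsetSum _ (fun y _ => hint x y))]
    apply Finset.sum_congr rfl
    intro x _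
    rw [integral_finsetSum _ (fun y _ => hint x y)]
    apply Finset.sum_congr rfl
    intro y _
    rw [integral_const_mul, integral_indicator (hms x y)]
    change _ = a x y * autoc E (pr hd (x - y))
    rw [← hcov x y]
    simp [measureReal_restrict_apply]
  · intro μ hμ h
    exact no_closed d hd p hp0 hp1 E hE hEp hW μ h

end Pool.Agent.Results.MP_81397d_pr.NotClosedClass
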